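import Pool.Agent.Lib.MP_bf45aa_co.PAsm
import Pool.Agent.Lib.MP_bf45aa_co.PZEnd

set_option autoImplicit false

namespace Pool.Agent.Results.MP_bf45aa_co.AllPrimes

open Pool.Agent.Lib.MP_bf45aa_co

/-- The local action `G_v^{Γ(v)}`: the permutations of the neighbourhood of `v` induced by
elements of `G` fixing `v`. -/
def localGroup {V : Type} (Γ : SimpleGraph V) (G : Subgroup (Γ ≃g Γ)) (v : V) :
    Subgroup (Equiv.Perm (Γ.neighborSet v)) where
  carrier := {σ | ∃ g ∈ G, g v = v ∧ ∀ y : Γ.neighborSet v, (σ y : V) = g y}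
  one_mem' := ⟨1, G.one_mem, rfl, fun _ => rfl⟩
  mul_mem' := by
    rintro σ τ ⟨g, hg, hv, h⟩ ⟨k, hk, kv, h'⟩
    exact ⟨g * k, G.mul_mem hg hk, by rw [RelIso.mul_apply, kv, hv],
      fun y => by rw [Equiv.Perm.mul_apply, h, h', RelIso.mul_apply]⟩
  inv_mem' := by
    rintro σ ⟨g, hg, hv, h⟩
    refine ⟨g⁻¹, G.inv_mem hg, g.injective (by rw [hv]; simp), fun y => g.injective ?_⟩
    rw [← h]; simp

/-- A permutation group is semiprimitive if it is transitive and each of its normal subgroups is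
transitive or semiregular. -/
def IsSemiprimitive {Ω : Type} (L : Subgroup (Equiv.Perm Ω)) : Prop :=
  (∀ x y : Ω, ∃ g ∈ L, g x = y) ∧
    ∀ N : Subgroup (Equiv.Perm Ω), N ≤ L → (∀ g ∈ L, ∀ n ∈ N, g * n * g⁻¹ ∈ N) →
      (∀ x y : Ω, ∃ n ∈ N, n x = y) ∨ ∀ n ∈ N, ∀ x : Ω, n x = x → n = 1

/-- The permutation of the neighbourhood induced by an automorphism fixing `v`. -/
def res {V : Type} {Γ : SimpleGraph V} {v : V} (g : Γ ≃g Γ) (h : g v = v) :
    Equiv.Perm (Γ.neighborSet v) :=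
  Equiv.Perm.subtypePerm g.toEquiv fun y => by
    have := g.map_rel_iff (a := v) (b := y)
    rw [h] at this
    exact this

/-- Vertex stabilisers of locally semiprimitive vertex-transitive pairs are bounded in terms of
the valency. -/
theorem result :
  ∃ f : ℕ → ℕ, ∀ (V : Type) [Fintype V] (Γ : SimpleGraph V) (G : Subgroup (Γ ≃g Γ)) (d : ℕ),
    Γ.Connected →
    (∀ v : V, (Γ.neighborSet v).ncard ≤ d) →
    (∀ u v : V, ∃ g ∈ G, g u = v) →
    (∀ v : V, IsSemiprimitive (localGroup Γ G v)) →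
    ∀ v : V, Nat.card {g : Γ ≃g Γ // g ∈ G ∧ g v = v} ≤ f d := by
  obtain ⟨f, hf⟩ := psv_of_noPD fun _ _ _ _ _ _ _ _ _ _ D => D.false
  refine ⟨fun d => (Finset.range (d + 1)).sup f, fun V _ Γ G d hc hd hv hs v => ?_⟩
  refine (hf V Γ G (Γ.neighborSet v).ncard hc (fun u => ?_) (fun u w x y h1 h2 => ?_)
    (fun u N h1 h2 => ?_) v).trans
    (Finset.le_sup (f := f) (Finset.mem_range.2 (Nat.lt_succ_of_le (hd v))))
  · obtain ⟨g, -, rfl⟩ := hv u v
    exact Nat.card_congr (g.mapNeighborSet u)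
  · obtain ⟨g, hg, rfl⟩ := hv u x
    obtain ⟨σ, ⟨k, hk, k1, k2⟩, e⟩ := (hs (g u)).1 ⟨g w, g.map_rel_iff.2 h1⟩ ⟨y, h2⟩
    refine ⟨k * g, G.mul_mem hk hg, k1, ?_⟩
    have := k2 ⟨g w, g.map_rel_iff.2 h1⟩
    rw [e] at this
    exact this.symm
  · let M : Subgroup (Equiv.Perm (Γ.neighborSet u)) := localGroup Γ N u
    rcases (hs u).2 M (fun σ ⟨n, hn, e⟩ => ⟨n, (h1 n hn).1, e⟩) (by
      rintro σ ⟨g, hg, g1, g2⟩ τ ⟨n, hn, n1, n2⟩
      refine ⟨g * n * g⁻¹, h2 g hg g1 n hn, (h1 _ (h2 g hg g1 n hn)).2, fun y => ?_⟩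
      obtain ⟨y, rfl⟩ := σ.surjective y
      rw [Equiv.Perm.mul_apply, Equiv.Perm.mul_apply, Equiv.Perm.inv_def, Equiv.symm_apply_apply,
        g2, n2, g2]
      simp) with t | t
    · refine Or.inl fun x y hx hy => ?_
      obtain ⟨σ, ⟨n, hn, -, e⟩, e'⟩ := t ⟨x, hx⟩ ⟨y, hy⟩
      exact ⟨n, hn, by rw [← e ⟨x, hx⟩, e']⟩
    · refine Or.inr fun n hn x hx e y hy => ?_
      have := t (res n (h1 n hn).2) ⟨n, hn, (h1 n hn).2, fun _ => rfl⟩ ⟨x, hx⟩ (Subtype.ext e)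
      exact congrArg Subtype.val (Equiv.congr_fun this ⟨y, hy⟩)

end Pool.Agent.Results.MP_bf45aa_co.AllPrimes
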